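import Mathlib
import Pool.Agent.R204.DSQ.Stm

set_option autoImplicit false

namespace Pool.Agent.R512.DSQ

open Finset Pool.Agent.R204.DSQ

theorem hyp : HypSt := by
  intro θ n
  set s := Nat.sqrt n with hs
  set F : ℕ × ℕ → ℂ := fun p => e (p.2 * (p.1 * θ)) with hF
  set P : Finset (ℕ × ℕ) := (Icc 1 n ×ˢ Icc 1 n).filter (fun p => p.1 * p.2 ≤ n) with hP
  have hss : s * s ≤ n := Nat.sqrt_le n
  have hss' : n < (s + 1) * (s + 1) := Nat.lt_succ_sqrt n
  have hsn : s ≤ n := Nat.sqrt_le_self n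
  have hS : S θ n = ∑ p ∈ P, F p := by
    have h1 : ∀ p ∈ P, p.1 * p.2 ∈ Icc 1 n := by
      intro p hp
      simp only [hP, mem_filter, mem_product, mem_Icc] at hp
      exact mem_Icc.2 ⟨Nat.mul_pos (by omega) (by omega), hp.2⟩
    rw [← sum_fiberwise_of_maps_to h1]
    unfold S
    apply sum_congr rfl
    intro k hk
    have hk1 := mem_Icc.1 hk
    have h2 : (P.filter (fun p => p.1 * p.2 = k)) = Nat.divisorsAntidiagonal k := by
      ext p
      simp only [hP, mem_filter, mem_product, mem_Icc, Nat.mem_divisorsAntidiagonal]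
      constructor
      · rintro ⟨_, h⟩
        exact ⟨h, by omega⟩
      · rintro ⟨h, _⟩
        have hp1 : 1 ≤ p.1 := Nat.one_le_iff_ne_zero.2 (by rintro h0; rw [h0] at h; omega)
        have hp2 : 1 ≤ p.2 := Nat.one_le_iff_ne_zero.2 (by rintro h0; rw [h0] at h; omega)
        have h3 : p.1 ≤ k := by rw [← h]; exact Nat.le_mul_of_pos_right _ hp2
        have h4 : p.2 ≤ k := by rw [← h]; exact Nat.le_mul_of_pos_left _ hp1
        exact ⟨⟨⟨⟨hp1, by omega⟩, ⟨hp2, by omega⟩⟩, by omega⟩, h⟩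
    rw [h2]
    have h5 : ∑ p ∈ Nat.divisorsAntidiagonal k, F p = ∑ p ∈ Nat.divisorsAntidiagonal k, e (k * θ) := by
      apply sum_congr rfl
      intro p hp
      have h6 := (Nat.mem_divisorsAntidiagonal.1 hp).1
      simp only [hF]
      congr 1
      rw [← h6]
      push_cast
      ring
    rw [h5, sum_const, nsmul_eq_mul]
    congr 1
    unfold dv
    rw [← Nat.map_div_right_divisors, card_map]
    simp
  have hA : ∑ p ∈ P.filter (fun p => p.1 ≤ s), F p = ∑ u ∈ Icc 1 s, ∑ v ∈ Icc 1 (n / u), e (v * (u * θ)) := by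
    rw [sum_sigma']
    refine sum_bij' (fun p _ => (⟨p.1, p.2⟩ : (_ : ℕ) × ℕ)) (fun q _ => (q.1, q.2)) ?_ ?_ ?_ ?_ ?_
    · intro p hp
      simp only [hP, mem_filter, mem_product, mem_Icc] at hp
      simp only [mem_sigma, mem_Icc]
      refine ⟨⟨hp.1.1.1.1, hp.2⟩, hp.1.1.2.1, ?_⟩
      rw [Nat.le_div_iff_mul_le (by omega), mul_comm]
      exact hp.1.2
    · intro q hq
      simp only [mem_sigma, mem_Icc] at hq
      simp only [hP, mem_filter, mem_product, mem_Icc]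
      have h1 : q.2 * q.1 ≤ n := (Nat.le_div_iff_mul_le (by omega)).1 hq.2.2
      have h2 : q.2 ≤ q.2 * q.1 := Nat.le_mul_of_pos_right _ (by omega)
      exact ⟨⟨⟨⟨hq.1.1, by omega⟩, ⟨hq.2.1, by omega⟩⟩, by rw [mul_comm]; exact h1⟩, hq.1.2⟩
    · intro p _; rfl
    · intro q _; rfl
    · intro p _; rfl
  have hB : ∑ p ∈ P.filter (fun p => p.2 ≤ s), F p = ∑ p ∈ P.filter (fun p => p.1 ≤ s), F p := by
    refine sum_bij' (fun p _ => (p.2, p.1)) (fun p _ => (p.2, p.1)) ?_ ?_ ?_ ?_ ?_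
    · intro p hp
      simp only [hP, mem_filter, mem_product, mem_Icc] at hp ⊢
      exact ⟨⟨⟨hp.1.1.2, hp.1.1.1⟩, by rw [mul_comm]; exact hp.1.2⟩, hp.2⟩
    · intro p hp
      simp only [hP, mem_filter, mem_product, mem_Icc] at hp ⊢
      exact ⟨⟨⟨hp.1.1.2, hp.1.1.1⟩, by rw [mul_comm]; exact hp.1.2⟩, hp.2⟩
    · intro p _; rfl
    · intro p _; rfl
    · intro p _
      simp only [hF]
      congr 1
      ring
  have hAB : ∑ p ∈ (P.filter (fun p => p.1 ≤ s)) ∩ (P.filter (fun p => p.2 ≤ s)), F p =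
      ∑ u ∈ Icc 1 s, ∑ v ∈ Icc 1 s, e (v * (u * θ)) := by
    rw [← sum_product']
    apply sum_congr _ (fun p _ => rfl)
    ext p
    simp only [hP, mem_inter, mem_filter, mem_product, mem_Icc]
    constructor
    · rintro ⟨⟨h1, h2⟩, ⟨_, h3⟩⟩
      exact ⟨⟨h1.1.1.1, h2⟩, ⟨h1.1.2.1, h3⟩⟩
    · rintro ⟨⟨h1, h2⟩, ⟨h3, h4⟩⟩
      have h5 : p.1 * p.2 ≤ n := (Nat.mul_le_mul h2 h4).trans hss
      exact ⟨⟨⟨⟨⟨h1, by omega⟩, ⟨h3, by omega⟩⟩, h5⟩, h2⟩, ⟨⟨⟨⟨h1, by omega⟩, ⟨h3, by omega⟩⟩, h5⟩, h4⟩⟩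
  have hU : P = (P.filter (fun p => p.1 ≤ s)) ∪ (P.filter (fun p => p.2 ≤ s)) := by
    rw [← filter_or]
    symm
    apply filter_true_of_mem
    intro p hp
    by_contra hc
    push Not at hc
    simp only [hP, mem_filter, mem_product, mem_Icc] at hp
    have h1 : (s + 1) * (s + 1) ≤ p.1 * p.2 := Nat.mul_le_mul (by omega) (by omega)
    omega
  have h7 := sum_union_inter (s₁ := P.filter (fun p => p.1 ≤ s)) (s₂ := P.filter (fun p => p.2 ≤ s)) (f := F)
  rw [← hU, hAB, hB, hA] at h7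
  rw [hS]
  linear_combination h7

end Pool.Agent.R512.DSQ
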